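import Pool.Agent.Work.MP_465a95_pr.Exist

open Filter Topology
open Pool.Agent.Work.MP_465a95_pr

namespace Pool.Agent.Results.MP_465a95_pr.FlowNearOne

/-- The flow constant `v(p)`, the `L¹` limit of `V(n, p) / (2n)`, exists for every `0 < p < 1`, and
`1 - v(p) ∼ √(2 (1 - p))` as `p ↑ 1`. -/
theorem result :
    (∃ v : ℝ → ℝ, IsFlowConstant v) ∧
    (∀ v : ℝ → ℝ, IsFlowConstant v →
      Tendsto (fun p : ℝ => (1 - v p) / √(2 * (1 - p))) (𝓝[<] 1) (𝓝 1)) :=
  ⟨exists_flowConstant, fun _ hv => main_flow hv⟩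

end Pool.Agent.Results.MP_465a95_pr.FlowNearOne
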